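import Pool.Agent.Helper94.UP.Sheet

open scoped ZeroAtInfty ContDiff NNReal
open Set Filter Topology MeasureTheory

namespace Pool.Agent.Helper94.UP

theorem st_A3.{u} (h1 : ST_ME.{u}) : ST_A3.{u} := by
  intro k X _ _ D hD hApp q M hM hq1 hq2 g L0 κ hL0 hκ hg hLip c
  have hη : 0 < κ / (D * M) := by positivity
  obtain ⟨η, hηd⟩ : ∃ η : ℝ, η = κ / (D * M) := ⟨_, rfl⟩
  rw [← hηd] at hη
  have hηD : η * D * M = κ := by rw [hηd]; field_simp
  have hs : HasStrictFDerivAt g (fderiv ℝ g c) c :=
    (hg.contDiffAt (x := c)).hasStrictFDerivAt (by norm_num)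
  obtain ⟨T, hT⟩ : ∃ T : X →L[ℝ] ℝ, T = fderiv ℝ g c := ⟨_, rfl⟩
  rw [← hT] at hs
  have hTb : ∀ v, |T v| ≤ L0 * q v := by
    intro v
    have hd : HasDerivAt (fun t : ℝ => g (c + t • v)) (T v) 0 := by
      have h2 : HasDerivAt (fun t : ℝ => c + t • v) v 0 := by
        have h3 := ((hasDerivAt_id (0 : ℝ)).smul_const v).const_add c
        simpa using h3
      have h4 : HasFDerivAt g T (c + (0 : ℝ) • v) := by
        have h5 := hs.hasFDerivAt
        simpa using h5
      exact h4.comp_hasDerivAt (0 : ℝ) h2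
    have h6 := hd.le_of_lip' (C := L0 * q v) (mul_nonneg hL0 (apply_nonneg q v))
      (Filter.Eventually.of_forall (fun t => by
        have h7 := hLip (c + t • v) (c + (0 : ℝ) • v)
        have h8 : c + t • v - (c + (0 : ℝ) • v) = t • v := by simp
        rw [h8, map_smul_eq_mul] at h7
        simp only [Real.norm_eq_abs, sub_zero] at h7 ⊢
        calc |g (c + t • v) - g (c + (0 : ℝ) • v)| ≤ L0 * (|t| * q v) := h7
          _ = L0 * q v * |t| := by ring))
    simpa using h6
  have hlo := hs.isLittleO.def hη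
  rw [Metric.eventually_nhds_iff] at hlo
  obtain ⟨ε, hε, hball⟩ := hlo
  have hr : 0 < ε / 2 := by positivity
  obtain ⟨r, hrd⟩ : ∃ r : ℝ, r = ε / 2 := ⟨_, rfl⟩
  rw [← hrd] at hr
  have hloc : ∀ x y, ‖x - c‖ ≤ r → ‖y - c‖ ≤ r → |g x - g y - T (x - y)| ≤ η * ‖x - y‖ := by
    intro x y hx hy
    have h9 : dist (x, y) (c, c) < ε := by
      rw [Prod.dist_eq]
      simp only [dist_eq_norm]
      have : max ‖x - c‖ ‖y - c‖ ≤ r := max_le hx hy
      linarith
    have h10 := hball h9
    simpa [Real.norm_eq_abs] using h10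
  refine ⟨r, hr, ?_⟩
  intro e he
  obtain ⟨σ, hσ1, hσ2, hσ3⟩ := h1 c r η (fun x => g x - g c - T (x - c)) hr hη (by simp) (by
    intro x y hx hy
    have h11 := hloc x y hx hy
    have h12 : g x - g c - T (x - c) - (g y - g c - T (y - c)) = g x - g y - T (x - y) := by
      simp only [map_sub]; ring
    simp only [h12]
    exact h11)
  have h2ηr : 0 < 2 * η * r := by positivity
  obtain ⟨f, hf1, hf2, hf3⟩ := hApp (fun x => (σ x + η * r) / (2 * η * r)) (1 / (2 * r))
    (by positivity) (by
      intro x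
      have h13 := abs_le.1 (hσ2 x)
      refine ⟨div_nonneg (by linarith [h13.1]) h2ηr.le, ?_⟩
      rw [div_le_one h2ηr]
      linarith [h13.2]) (by
      intro x y
      have h14 : (σ x + η * r) / (2 * η * r) - (σ y + η * r) / (2 * η * r)
          = (σ x - σ y) / (2 * η * r) := by ring
      rw [h14, abs_div, abs_of_pos h2ηr, div_le_iff₀ h2ηr]
      have h15 : 1 / (2 * r) * ‖x - y‖ * (2 * η * r) = η * ‖x - y‖ := by field_simp
      rw [h15]
      exact hσ3 x y) (e / (2 * η * r)) (by positivity)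
  refine ⟨fun x => g c + T (x - c) + 2 * η * r * f x - η * r, ?_, ?_, ?_⟩
  · exact ((contDiff_const.add (T.contDiff.comp (contDiff_id.sub contDiff_const))).add
      (contDiff_const.mul hf1)).sub contDiff_const
  · intro x y
    have h16 : g c + T (x - c) + 2 * η * r * f x - η * r
        - (g c + T (y - c) + 2 * η * r * f y - η * r)
        = T (x - y) + 2 * η * r * (f x - f y) := by
      simp only [map_sub]; ring
    simp only [h16]
    have h17 : |T (x - y) + 2 * η * r * (f x - f y)|
        ≤ |T (x - y)| + |2 * η * r * (f x - f y)| := abs_add_le _ _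
    have h18 : |2 * η * r * (f x - f y)| ≤ η * D * ‖x - y‖ := by
      rw [abs_mul, abs_of_pos h2ηr]
      calc 2 * η * r * |f x - f y| ≤ 2 * η * r * (D * (1 / (2 * r)) * ‖x - y‖) :=
            mul_le_mul_of_nonneg_left (hf2 x y) h2ηr.le
        _ = η * D * ‖x - y‖ := by field_simp
    have h19 : η * D * ‖x - y‖ ≤ κ * q (x - y) := by
      calc η * D * ‖x - y‖ ≤ η * D * (M * q (x - y)) :=
            mul_le_mul_of_nonneg_left (hq2 _) (by positivity)
        _ = (η * D * M) * q (x - y) := by ring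
        _ = κ * q (x - y) := by rw [hηD]
    have h20 := hTb (x - y)
    linarith [add_mul L0 κ (q (x - y))]
  · intro x hx
    have h21 := hσ1 x hx
    have h22 : g c + T (x - c) + 2 * η * r * f x - η * r - g x
        = 2 * η * r * (f x - (σ x + η * r) / (2 * η * r)) := by
      rw [h21]
      field_simp
      ring
    simp only [h22]
    rw [abs_mul, abs_of_pos h2ηr]
    have h23 := hf3 x
    rw [le_div_iff₀ h2ηr] at h23
    calc 2 * η * r * |f x - (σ x + η * r) / (2 * η * r)|
        = |f x - (σ x + η * r) / (2 * η * r)| * (2 * η * r) := by ring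
      _ ≤ e := h23

theorem stA3.{u} (h1 : ST_ME.{u}) : ST_A3.{u} := st_A3 h1

end Pool.Agent.Helper94.UP
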